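import Mathlib
import Pool.Agent.H576.CR.Stm

set_option autoImplicit false

namespace Pool.Agent.H253

open Finset Pool.Agent.H576.CR

section tail

variable {n : ℕ} (z : Fin n → ℂ)

/-- the real coefficients -/
noncomputable def crX : Fin n × Fin n → ℝ := fun p => (z p.1 * z p.2).re / nsq z

/-- the imaginary coefficients -/
noncomputable def crY : Fin n × Fin n → ℝ := fun p => (z p.1 * z p.2).im / nsq z

theorem cr_norm (hz : nsq z ≠ 0) (e : Fin n × Fin n → Bool) :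
    ‖rq e z‖ ^ 2 = nsq z ^ 2 * (rad (crX z) e ^ 2 + rad (crY z) e ^ 2) := by
  have h1 : (rq e z).re = nsq z * rad (crX z) e := by
    rw [rq, rad, Complex.re_sum, Finset.mul_sum]
    refine Finset.sum_congr rfl fun p _ => ?_
    rw [Complex.re_ofReal_mul, crX]
    field_simp
  have h2 : (rq e z).im = nsq z * rad (crY z) e := by
    rw [rq, rad, Complex.im_sum, Finset.mul_sum]
    refine Finset.sum_congr rfl fun p _ => ?_
    rw [Complex.im_ofReal_mul, crY]
    field_simp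
  rw [← Complex.normSq_eq_norm_sq, Complex.normSq_apply, h1, h2]
  ring

theorem cr_sum (hz : nsq z ≠ 0) : ∑ p, crX z p ^ 2 + ∑ p, crY z p ^ 2 = 1 := by
  rw [← Finset.sum_add_distrib]
  have h1 : ∀ p : Fin n × Fin n, crX z p ^ 2 + crY z p ^ 2 = ‖z p.1‖ ^ 2 * ‖z p.2‖ ^ 2 / nsq z ^ 2 := by
    intro p
    rw [← mul_pow, ← norm_mul, ← Complex.normSq_eq_norm_sq, Complex.normSq_apply, crX, crY]
    ring
  rw [Finset.sum_congr rfl fun p _ => h1 p, ← Finset.sum_div, Fintype.sum_prod_type]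
  have h2 : ∑ i, ∑ j, ‖z i‖ ^ 2 * ‖z j‖ ^ 2 = nsq z ^ 2 := by
    rw [nsq, sq, Finset.sum_mul_sum]
  rw [h2]
  exact div_self (pow_ne_zero 2 hz)

theorem cr_sumX (hz : nsq z ≠ 0) : ∑ p, crX z p ^ 2 ≤ 1 := by
  have h := cr_sum z hz
  have : 0 ≤ ∑ p, crY z p ^ 2 := Finset.sum_nonneg fun p _ => sq_nonneg _
  linarith

theorem cr_sumY (hz : nsq z ≠ 0) : ∑ p, crY z p ^ 2 ≤ 1 := by
  have h := cr_sum z hz
  have : 0 ≤ ∑ p, crX z p ^ 2 := Finset.sum_nonneg fun p _ => sq_nonneg _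
  linarith

/-- the exponential moment with `μ = 3/8` -/
theorem cr_exp38 (h1 : S_EXP) (x : Fin n × Fin n → ℝ) (hx : ∑ p, x p ^ 2 ≤ 1) :
    ∑ e : Fin n × Fin n → Bool, Real.exp (3 / 8 * rad x e ^ 2) ≤ 2 * 2 ^ (n * n) := by
  have h := h1 (Fin n × Fin n) x (3 / 8) (by norm_num) (by linarith)
  refine h.trans ?_
  rw [Fintype.card_prod, Fintype.card_fin]
  have h3 : (1 / 2 : ℝ) ≤ Real.sqrt (1 - 2 * (3 / 8) * ∑ i, x i ^ 2) := by
    rw [show (1 / 2 : ℝ) = Real.sqrt ((1 / 2) ^ 2) by rw [Real.sqrt_sq (by norm_num)]]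
    apply Real.sqrt_le_sqrt
    linarith
  rw [div_le_iff₀ (by linarith)]
  have h4 : (0 : ℝ) < 2 ^ (n * n) := by positivity
  nlinarith

/-- the fourth moment -/
theorem cr_four (h1 : S_EXP) (x : Fin n × Fin n → ℝ) (hx : ∑ p, x p ^ 2 ≤ 1) :
    ∑ e : Fin n × Fin n → Bool, rad x e ^ 4 ≤ 50 * 2 ^ (n * n) := by
  have h := h1 (Fin n × Fin n) x (1 / 4) (by norm_num) (by linarith)
  rw [Fintype.card_prod, Fintype.card_fin] at h
  have h3 : (7 / 10 : ℝ) ≤ Real.sqrt (1 - 2 * (1 / 4) * ∑ i, x i ^ 2) := by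
    rw [show (7 / 10 : ℝ) = Real.sqrt ((7 / 10) ^ 2) by rw [Real.sqrt_sq (by norm_num)]]
    apply Real.sqrt_le_sqrt
    norm_num
    linarith
  have h5 : ∀ e : Fin n × Fin n → Bool, rad x e ^ 4 ≤ 32 * Real.exp (1 / 4 * rad x e ^ 2) := by
    intro e
    have h6 := Real.quadratic_le_exp_of_nonneg (x := 1 / 4 * rad x e ^ 2) (by positivity)
    have h7 : 0 ≤ rad x e ^ 2 := sq_nonneg _
    have h8 : rad x e ^ 4 = (rad x e ^ 2) ^ 2 := by ring
    rw [h8]
    nlinarith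
  calc ∑ e : Fin n × Fin n → Bool, rad x e ^ 4 ≤ ∑ e : Fin n × Fin n → Bool, 32 * Real.exp (1 / 4 * rad x e ^ 2) :=
        Finset.sum_le_sum fun e _ => h5 e
    _ = 32 * ∑ e : Fin n × Fin n → Bool, Real.exp (1 / 4 * rad x e ^ 2) := by rw [Finset.mul_sum]
    _ ≤ 32 * (2 ^ (n * n) / Real.sqrt (1 - 2 * (1 / 4) * ∑ i, x i ^ 2)) := by linarith
    _ ≤ 50 * 2 ^ (n * n) := by
      rw [← mul_div_assoc, div_le_iff₀ (by linarith)]
      have h4 : (0 : ℝ) < 2 ^ (n * n) := by positivity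
      nlinarith

theorem cr_exp_neg {y : ℝ} (hy : 0 ≤ y) : Real.exp (-y) ≤ 1 - y + y ^ 2 / 2 := by
  have h := Real.quadratic_le_exp_of_nonneg hy
  have h1 : 0 < Real.exp y := Real.exp_pos y
  rw [Real.exp_neg, inv_eq_one_div, div_le_iff₀ h1]
  have h3 : 0 < 1 - y + y ^ 2 / 2 := by nlinarith [sq_nonneg (y - 1)]
  have h4 : (1 - y + y ^ 2 / 2) * (1 + y + y ^ 2 / 2) ≤ (1 - y + y ^ 2 / 2) * Real.exp y :=
    mul_le_mul_of_nonneg_left h h3.le
  nlinarith [pow_nonneg hy 4]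

/-- Markov's inequality for the product -/
theorem cr_markov {ε : Type} [Fintype ε] [DecidableEq ε] (N : ℕ) (g : ε → ℝ) (A t : ℝ)
    (hA : ∑ e, Real.exp (g e) ≤ A) (p : (Fin N → ε) → Prop) [DecidablePred p]
    (hp : ∀ E, p E → t ≤ ∑ k, g (E k)) :
    ((univ.filter p).card : ℝ) * Real.exp t ≤ A ^ N := by
  have h1 : ((univ.filter p).card : ℝ) * Real.exp t ≤ ∑ E ∈ univ.filter p, Real.exp (∑ k, g (E k)) := by
    rw [← nsmul_eq_mul]
    apply Finset.card_nsmul_le_sum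
    intro E hE
    rw [Finset.mem_filter] at hE
    exact Real.exp_le_exp.2 (hp E hE.2)
  have h2 : ∑ E ∈ univ.filter p, Real.exp (∑ k, g (E k)) ≤ ∑ E : Fin N → ε, Real.exp (∑ k, g (E k)) :=
    Finset.sum_le_sum_of_subset_of_nonneg (Finset.filter_subset _ _) fun _ _ _ => (Real.exp_pos _).le
  have h3 : ∑ E : Fin N → ε, Real.exp (∑ k, g (E k)) = (∑ e, Real.exp (g e)) ^ N := by
    rw [Fintype.sum_pow]
    exact Finset.sum_congr rfl fun E _ => Real.exp_sum _ _
  calc _ ≤ _ := h1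
    _ ≤ _ := h2
    _ = _ := h3
    _ ≤ A ^ N := pow_le_pow_left₀ (Finset.sum_nonneg fun _ _ => (Real.exp_pos _).le) hA N

theorem cr_zero (h : nsq z = 0) (e : Fin n × Fin n → Bool) : rq e z = 0 := by
  have h1 : ∀ i, z i = 0 := by
    intro i
    rw [nsq, Finset.sum_eq_zero_iff_of_nonneg (fun _ _ => by positivity)] at h
    have := h i (Finset.mem_univ i)
    simpa using this
  rw [rq]
  exact Finset.sum_eq_zero fun p _ => by rw [h1]; simp

end tail

theorem cr_up (h1 : S_EXP) : S_UP := by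
  intro n N z K
  by_cases hz : nsq z = 0
  · have : (univ.filter fun E : Fin N → (Fin n × Fin n → Bool) =>
      K * N * nsq z ^ 2 < ∑ k, ‖rq (E k) z‖ ^ 2) = ∅ := by
      rw [Finset.filter_eq_empty_iff]
      intro E _
      rw [hz, Finset.sum_eq_zero (fun k _ => by rw [cr_zero z hz]; simp)]
      simp
    rw [this]
    simp only [Finset.card_empty, Nat.cast_zero]
    positivity
  have hA : ∑ e : Fin n × Fin n → Bool, Real.exp (3 / 16 * (rad (crX z) e ^ 2 + rad (crY z) e ^ 2)) ≤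
      2 * 2 ^ (n * n) := by
    have e1 : ∀ e : Fin n × Fin n → Bool, Real.exp (3 / 16 * (rad (crX z) e ^ 2 + rad (crY z) e ^ 2)) ≤
        1 / 2 * (Real.exp (3 / 8 * rad (crX z) e ^ 2) + Real.exp (3 / 8 * rad (crY z) e ^ 2)) := by
      intro e
      have a1 : Real.exp (3 / 16 * (rad (crX z) e ^ 2 + rad (crY z) e ^ 2)) =
          Real.exp (3 / 16 * rad (crX z) e ^ 2) * Real.exp (3 / 16 * rad (crY z) e ^ 2) := by
        rw [← Real.exp_add]; ring_nf
      have a2 : Real.exp (3 / 8 * rad (crX z) e ^ 2) = Real.exp (3 / 16 * rad (crX z) e ^ 2) ^ 2 := by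
        rw [← Real.exp_nat_mul]; ring_nf
      have a3 : Real.exp (3 / 8 * rad (crY z) e ^ 2) = Real.exp (3 / 16 * rad (crY z) e ^ 2) ^ 2 := by
        rw [← Real.exp_nat_mul]; ring_nf
      rw [a1, a2, a3]
      nlinarith [sq_nonneg (Real.exp (3 / 16 * rad (crX z) e ^ 2) - Real.exp (3 / 16 * rad (crY z) e ^ 2))]
    refine (Finset.sum_le_sum fun e _ => e1 e).trans ?_
    rw [← Finset.mul_sum, Finset.sum_add_distrib]
    have b1 := cr_exp38 h1 (crX z) (cr_sumX z hz)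
    have b2 := cr_exp38 h1 (crY z) (cr_sumY z hz)
    linarith
  have hr : 0 < nsq z ^ 2 := by positivity
  have h := cr_markov N (fun e : Fin n × Fin n → Bool => 3 / 16 * (rad (crX z) e ^ 2 + rad (crY z) e ^ 2))
    (2 * 2 ^ (n * n)) (3 / 16 * (K * N)) hA (fun E => K * N * nsq z ^ 2 < ∑ k, ‖rq (E k) z‖ ^ 2) (by
      intro E hE
      simp only [cr_norm z hz] at hE
      rw [← Finset.mul_sum, mul_comm (nsq z ^ 2)] at hE
      have := lt_of_mul_lt_mul_right hE hr.le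
      rw [← Finset.mul_sum]
      linarith)
  have hexp : Real.exp (-(3 / 16 * K)) ^ N * Real.exp (3 / 16 * (K * N)) = 1 := by
    rw [← Real.exp_nat_mul, ← Real.exp_add]
    rw [show (N : ℝ) * -(3 / 16 * K) + 3 / 16 * (K * N) = 0 by ring, Real.exp_zero]
  have hpos := Real.exp_pos (3 / 16 * (K * N))
  apply le_of_mul_le_mul_right _ hpos
  refine h.trans (le_of_eq ?_)
  rw [mul_pow, mul_pow, mul_assoc, mul_assoc, hexp]
  ring

theorem cr_lo (h1 : S_EXP) (h2 : S_SQ) : S_LO := by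
  intro n N z
  by_cases hz : nsq z = 0
  · have : (univ.filter fun E : Fin N → (Fin n × Fin n → Bool) =>
      ∑ k, ‖rq (E k) z‖ ^ 2 < N / 4 * nsq z ^ 2) = ∅ := by
      rw [Finset.filter_eq_empty_iff]
      intro E _
      rw [hz, Finset.sum_eq_zero (fun k _ => by rw [cr_zero z hz]; simp)]
      simp
    rw [this]
    simp only [Finset.card_empty, Nat.cast_zero]
    positivity
  have hp : (0 : ℝ) < 2 ^ (n * n) := by positivity
  have hsq : ∑ e : Fin n × Fin n → Bool, (rad (crX z) e ^ 2 + rad (crY z) e ^ 2) = 2 ^ (n * n) := by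
    rw [Finset.sum_add_distrib, h2, h2, ← mul_add, cr_sum z hz, Fintype.card_prod, Fintype.card_fin, mul_one]
  have hfour : ∑ e : Fin n × Fin n → Bool, (rad (crX z) e ^ 2 + rad (crY z) e ^ 2) ^ 2 ≤ 200 * 2 ^ (n * n) := by
    have e1 : ∀ e : Fin n × Fin n → Bool, (rad (crX z) e ^ 2 + rad (crY z) e ^ 2) ^ 2 ≤
        2 * rad (crX z) e ^ 4 + 2 * rad (crY z) e ^ 4 := by
      intro e
      nlinarith [sq_nonneg (rad (crX z) e ^ 2 - rad (crY z) e ^ 2)]
    refine (Finset.sum_le_sum fun e _ => e1 e).trans ?_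
    rw [Finset.sum_add_distrib, ← Finset.mul_sum, ← Finset.mul_sum]
    have b1 := cr_four h1 (crX z) (cr_sumX z hz)
    have b2 := cr_four h1 (crY z) (cr_sumY z hz)
    linarith
  have hA : ∑ e : Fin n × Fin n → Bool, Real.exp (-(1 / 200 * (rad (crX z) e ^ 2 + rad (crY z) e ^ 2))) ≤
      Real.exp (-(1 / 400)) * 2 ^ (n * n) := by
    have e1 : ∀ e : Fin n × Fin n → Bool, Real.exp (-(1 / 200 * (rad (crX z) e ^ 2 + rad (crY z) e ^ 2))) ≤
        1 - 1 / 200 * (rad (crX z) e ^ 2 + rad (crY z) e ^ 2) +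
          1 / 80000 * (rad (crX z) e ^ 2 + rad (crY z) e ^ 2) ^ 2 := by
      intro e
      have := cr_exp_neg (y := 1 / 200 * (rad (crX z) e ^ 2 + rad (crY z) e ^ 2)) (by positivity)
      refine this.trans (le_of_eq ?_)
      ring
    refine (Finset.sum_le_sum fun e _ => e1 e).trans ?_
    rw [Finset.sum_add_distrib, Finset.sum_sub_distrib, ← Finset.mul_sum, ← Finset.mul_sum, hsq]
    have hc : ∑ _e : Fin n × Fin n → Bool, (1 : ℝ) = 2 ^ (n * n) := by
      simp [Fintype.card_prod]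
    rw [hc]
    have h3 : (1 : ℝ) - 1 / 400 ≤ Real.exp (-(1 / 400)) := by
      have := Real.add_one_le_exp (-(1 / 400 : ℝ))
      linarith
    nlinarith
  have hr : 0 < nsq z ^ 2 := by positivity
  have h := cr_markov N (fun e : Fin n × Fin n → Bool => -(1 / 200 * (rad (crX z) e ^ 2 + rad (crY z) e ^ 2)))
    (Real.exp (-(1 / 400)) * 2 ^ (n * n)) (-(N / 800)) hA
    (fun E => ∑ k, ‖rq (E k) z‖ ^ 2 < N / 4 * nsq z ^ 2) (by
      intro E hE
      simp only [cr_norm z hz] at hE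
      rw [← Finset.mul_sum, mul_comm (nsq z ^ 2)] at hE
      have := lt_of_mul_lt_mul_right hE hr.le
      rw [Finset.sum_neg_distrib, ← Finset.mul_sum]
      linarith)
  have hpos := Real.exp_pos (-((N : ℝ) / 800))
  apply le_of_mul_le_mul_right _ hpos
  refine h.trans (le_of_eq ?_)
  rw [mul_pow, ← Real.exp_nat_mul, mul_assoc, ← Real.exp_add, mul_comm]
  congr 2
  ring

end Pool.Agent.H253
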