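import Mathlib
import Pool.Agent.H812.Tm.Spec4
import Pool.Graph.R_seed8.W216.Stu.Hyp

/-!
Leaves are smooth: `SLeafC`.
-/

set_option autoImplicit false

open Real Filter Topology Set
open scoped ContDiff

namespace Pool.Agent.H253.TmLeafC

open Pool.Agent.W811.Stu Pool.Agent.H812.Tm

theorem isOpen_U : IsOpen U := by
  unfold U
  exact isOpen_lt (by fun_prop) continuous_const

/-- the members of a run of an alive orbit -/
theorem mem_le {δ : ℝ} (hδ : δ ≠ 0) {d : ℕ → ℕ} {p : P3} (hS : OnS δ p) (hz : |p.z| ≤ 1)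
    (hA : Alive d p) (j : ℕ) (hj : 1 < |(orb d p j).y|) : ∀ k ≤ d j, |tf d j k p| ≤ 1 := by
  obtain ⟨K, hK⟩ := Pool.Agent.W216.Stu.Hyp.hyp δ 1 1 hδ zero_le_one (one_lt_cc hδ)
  have h1 : |(orb d p j).z| ≤ 1 := by
    rcases j with _ | j
    · exact hz
    · rw [orb_succ_z]
      rcases hA j with h | h
      · exact h
      · exact absurd h (not_le.2 hj)
  have h2 : |(stepR^[d j] (orb d p j)).z| ≤ 1 := by
    rcases hA j with h | h
    · exact absurd h (not_le.2 hj)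
    · exact h
  exact (hK (orb d p j) (d j) (hS.orb d j) hj h1 h2).1

/-- derivative along a leaf -/
theorem along {f : ℝ × ℝ → ℝ} (hf : ContDiffOn ℝ ∞ f U) {ϑ : ℝ → ℝ} {t s : ℝ} (ht : |t| < 1)
    (hϑ : HasDerivAt ϑ s t) :
    HasDerivAt (fun t => f (t, ϑ t)) (dz f (t, ϑ t) + s * dt f (t, ϑ t)) t := by
  have hU : ((t, ϑ t) : ℝ × ℝ) ∈ U := ht
  have h1 : HasFDerivAt f (fderiv ℝ f (t, ϑ t)) (t, ϑ t) :=
    ((hf.contDiffAt (isOpen_U.mem_nhds hU)).differentiableAt (by simp)).hasFDerivAt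
  have h2 : HasDerivAt (fun t => ((t, ϑ t) : ℝ × ℝ)) (1, s) t := (hasDerivAt_id t).prodMk hϑ
  have h3 := h1.comp_hasDerivAt t h2
  have e : fderiv ℝ f (t, ϑ t) (1, s) = dz f (t, ϑ t) + s * dt f (t, ϑ t) := by
    unfold dz dt
    have : ((1, s) : ℝ × ℝ) = (1, 0) + s • (0, 1) := by simp
    rw [this, map_add, map_smul, smul_eq_mul]
  rw [e] at h3
  exact h3

/-- derivative in the direction `ϑ` -/
theorem dt_eq {f : ℝ × ℝ → ℝ} (hf : ContDiffOn ℝ ∞ f U) {v : ℝ × ℝ} (hv : v ∈ U) {s : ℝ}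
    (h : HasDerivAt (fun t => f (v.1, t)) s v.2) : s = dt f v := by
  have h1 : HasFDerivAt f (fderiv ℝ f v) v :=
    ((hf.contDiffAt (isOpen_U.mem_nhds hv)).differentiableAt (by simp)).hasFDerivAt
  have h2 : HasDerivAt (fun t => ((v.1, t) : ℝ × ℝ)) (0, 1) v.2 :=
    (hasDerivAt_const v.2 v.1).prodMk (hasDerivAt_id v.2)
  have h1' : HasFDerivAt f (fderiv ℝ f v) (v.1, v.2) := h1
  have h3 := h1'.comp_hasDerivAt v.2 h2
  exact h.unique h3

/-- the tangent vector `∂_ϑ ze` -/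
noncomputable def u0 (δ : ℝ) (v : ℝ × ℝ) : P3 :=
  ⟨0, -gX (ze δ v) / √(1 - v.1 ^ 2), gB (ze δ v) / √(1 - v.1 ^ 2)⟩

theorem tan_u0 (δ : ℝ) (v : ℝ × ℝ) : Tan (ze δ v) (u0 δ v) := by
  unfold Tan u0
  simp only
  ring

theorem smooth_Y (hDt : SDt) (δ : ℝ) (d : ℕ → ℕ) (j : ℕ) : ContDiffOn ℝ ∞ (Yf δ d j) U :=
  (hDt δ d j).1

theorem smooth_T (hDt : SDt) (δ : ℝ) (d : ℕ → ℕ) (j k : ℕ) : ContDiffOn ℝ ∞ (Tf δ d j k) U := by
  rw [Tf_eq]
  exact (hDt δ _ _).1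

theorem tg_y (hCoord : SCoord) (hDt : SDt) (δ : ℝ) (d : ℕ → ℕ) {v : ℝ × ℝ} (hv : v ∈ U) (s : Ch) :
    (s.tg d (ze δ v) (u0 δ v)).y = dt (s.fn δ d) v := by
  have h := (hCoord δ).2.2.2.2 v hv
  rcases s with j | ⟨j, k⟩
  · exact dt_eq (smooth_Y hDt δ d j) hv (h.orb d j).2.1
  · exact dt_eq (smooth_T hDt δ d j (k + 1)) hv (((h.orb d j).iter (k + 1)).1)

theorem cont_pt (d : ℕ → ℕ) (s : Ch) : Continuous fun v => toL (s.pt d (ofL v)) := by
  rcases s with j | ⟨j, k⟩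
  · exact cont_orb d j
  · have h : ∀ k, Continuous fun v => (stepR^[k] (orb d (ofL v) j)).z := by
      intro k
      have := (cont_iter k).comp (cont_orb d j)
      simp only [Function.comp_def, ofL_toL] at this
      exact cont_toL_z this
    exact (h k).prodMk ((h (k + 1)).prodMk (cont_toL_y (cont_orb d j)))

/-- states of the chain -/
def Good (d : ℕ → ℕ) (bad : ℕ → Bool) : Ch → Prop
  | .Y j => bad j = false
  | .T j k => bad j = true ∧ k < d j

theorem good_seq {d : ℕ → ℕ} (hd : ∀ k, 1 ≤ d k) (bad : ℕ → Bool) (i : ℕ) :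
    Good d bad (Ch.seq d bad i) := by
  induction i with
  | zero =>
    unfold Ch.seq
    split_ifs with h
    · exact ⟨h, hd 0⟩
    · simpa [Good] using h
  | succ i ih =>
    rw [Ch.seq]
    rcases hs : Ch.seq d bad i with j | ⟨j, k⟩
    · rw [Ch.nx]
      split_ifs with h
      · exact ⟨h, hd _⟩
      · simpa [Good] using h
    · rw [hs] at ih
      rw [Ch.nx]
      split_ifs with h h'
      · exact ⟨ih.1, h⟩
      · exact ⟨h', hd _⟩
      · simpa [Good] using h'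

/-- constants below `κ` are attained in a neighbourhood: the pattern fits -/
theorem fit_at {δ κ κ1 κ2 : ℝ} (hδ : δ ≠ 0) (h2 : 1 < κ2) (hκ : 1 < κ) (h21 : κ2 < κ1)
    {d : ℕ → ℕ} (bad : ℕ → Bool) {v0 : ℝ × ℝ}
    (hA0 : Alive d (ze δ v0)) (hbad : ∀ j, bad j = true ↔ κ1 < |Yf δ d j v0|)
    {v : ℝ × ℝ} (hv : v ∈ U) (hS : OnS δ (ze δ v)) (hA : Alive d (ze δ v)) {ε : ℝ}
    (hε1 : κ1 + ε ≤ κ) (hε2 : κ2 + ε ≤ κ1) (hclose : ∀ j, |Yf δ d j v - Yf δ d j v0| ≤ ε) :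
    Fit δ κ κ2 d bad v := by
  refine ⟨fun j hj => ?_, fun j hj => ?_, fun j hj => ?_⟩
  · have h : ¬ κ1 < |Yf δ d j v0| := by
      rw [← hbad j, hj]; simp
    have h1 := hclose j
    have h3 := abs_sub_abs_le_abs_sub (Yf δ d j v) (Yf δ d j v0)
    push Not at h
    linarith
  · have h := (hbad j).1 hj
    have h1 := hclose j
    have h3 := abs_sub_abs_le_abs_sub (Yf δ d j v0) (Yf δ d j v)
    rw [abs_sub_comm] at h3
    have h4 : κ2 ≤ |Yf δ d j v| := by linarith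
    refine ⟨h4, fun k hk => ?_⟩
    have h5 : |tf d j k (ze δ v)| ≤ 1 :=
      mem_le hδ hS (le_of_lt hv) hA j (h2.trans_le h4) k hk
    exact h5.trans hκ.le
  · have h := (hbad j).1 hj
    have h1 : 1 < |(orb d (ze δ v0) j).y| := by
      have : |Yf δ d j v0| = |(orb d (ze δ v0) j).y| := rfl
      rw [← this]; linarith
    have h3 : |Yf δ d (j + 1) v0| ≤ 1 := by
      rcases hA0 j with h' | h'
      · exact absurd h' (not_le.2 h1)
      · exact h'
    have h4 : ¬ bad (j + 1) = true := by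
      rw [hbad]
      push Not
      linarith
    simpa using h4

/-- bound for the values of the states -/
theorem fn_le {δ κ κ2 : ℝ} {d : ℕ → ℕ} {bad : ℕ → Bool} {v : ℝ × ℝ} (hF : Fit δ κ κ2 d bad v)
    {s : Ch} (hs : Good d bad s) : |s.fn δ d v| ≤ κ := by
  rcases s with j | ⟨j, k⟩
  · exact hF.1 j hs
  · exact (hF.2.1 j hs.1).2 (k + 1) hs.2

theorem pt_y (δ : ℝ) (d : ℕ → ℕ) (v : ℝ × ℝ) (s : Ch) : (s.pt d (ze δ v)).y = s.fn δ d v := by
  rcases s with j | ⟨j, k⟩ <;> rfl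

theorem fn_smooth (hDt : SDt) (δ : ℝ) (d : ℕ → ℕ) (s : Ch) : ContDiffOn ℝ ∞ (s.fn δ d) U := by
  rcases s with j | ⟨j, k⟩
  · exact smooth_Y hDt δ d j
  · exact smooth_T hDt δ d j (k + 1)

theorem seq_zero_z (d : ℕ → ℕ) (bad : ℕ → Bool) (p : P3) : ((Ch.seq d bad 0).pt d p).z = p.z := by
  unfold Ch.seq
  split_ifs <;> rfl

theorem seq_zero_tgz (d : ℕ → ℕ) (bad : ℕ → Bool) (p u : P3) :
    ((Ch.seq d bad 0).tg d p u).z = u.z := by
  unfold Ch.seq
  split_ifs <;> rfl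

theorem tan_zero (p : P3) : Tan p ⟨0, 0, 0⟩ := by
  unfold Tan; simp

/-- the first function of the chain is smooth -/
theorem first (hJac : SJac) (hCh : SCh) (hChG : SChG) (hLip : SLip) (hCoord : SCoord)
    (hDt : SDt) {δ κ : ℝ} {d : ℕ → ℕ} {θ : ℝ → ℝ} (hδ : δ ≠ 0) (hκ : 1 < κ) (hκc : κ < cc δ)
    (hd : ∀ k, 1 ≤ d k) (hθ : Cut κ θ) {ϑ : ℝ → ℝ}
    (hϑ : ∀ z : ℝ, |z| < 1 → HasDerivAt ϑ (sg θ δ d (z, ϑ z)) z ∧ Alive d (ze δ (z, ϑ z)))
    {z0 : ℝ} (hz0 : |z0| < 1) :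
    (ContDiffAt ℝ ∞ (fun t => (ze δ (t, ϑ t)).y) z0 ∧ (ze δ (z0, ϑ z0)).y ^ 2 < 1 + δ ^ 2) ∨
    (ContDiffAt ℝ ∞ (fun t => (ze δ (t, ϑ t)).x) z0 ∧ (ze δ (z0, ϑ z0)).x ^ 2 < 1 + δ ^ 2) := by
  classical
  obtain ⟨κ1, hκ1, hκ1'⟩ := exists_between hκ
  obtain ⟨κ2, hκ2, hκ2'⟩ := exists_between hκ1
  set v0 : ℝ × ℝ := (z0, ϑ z0) with hv0
  have hv0U : v0 ∈ U := hz0
  have hSv : ∀ v ∈ U, OnS δ (ze δ v) := (hCoord δ).1
  set bad : ℕ → Bool := fun j => decide (κ1 < |Yf δ d j v0|) with hbadd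
  have hbad : ∀ j, bad j = true ↔ κ1 < |Yf δ d j v0| := by
    intro j
    simp only [hbadd, decide_eq_true_eq]
  -- the Lipschitz constant
  obtain ⟨r, hr0, hr1⟩ := exists_between hz0
  obtain ⟨C, hC0, hC⟩ := hLip δ κ κ2 r d θ hδ hκ hκc hκ2 hr1 hd hθ
  -- the radius
  obtain ⟨r0, hr0p, hrA, hrB, hrC⟩ : ∃ r0 : ℝ, 0 < r0 ∧ r0 ≤ r - |z0| ∧ κ1 + C * r0 ≤ κ ∧
      κ2 + C * r0 ≤ κ1 := by
    have p1 : 0 < r - |z0| := by linarith
    have p2 : 0 < (κ - κ1) / C := div_pos (by linarith) hC0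
    have p3 : 0 < (κ1 - κ2) / C := div_pos (by linarith) hC0
    refine ⟨min (r - |z0|) (min ((κ - κ1) / C) ((κ1 - κ2) / C)), lt_min p1 (lt_min p2 p3),
      min_le_left _ _, ?_, ?_⟩
    · have h1 : min (r - |z0|) (min ((κ - κ1) / C) ((κ1 - κ2) / C)) ≤ (κ - κ1) / C :=
        (min_le_right _ _).trans (min_le_left _ _)
      have h2 := mul_le_mul_of_nonneg_left h1 hC0.le
      rw [mul_div_cancel₀ _ hC0.ne'] at h2
      linarith
    · have h1 : min (r - |z0|) (min ((κ - κ1) / C) ((κ1 - κ2) / C)) ≤ (κ1 - κ2) / C :=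
        (min_le_right _ _).trans (min_le_right _ _)
      have h2 := mul_le_mul_of_nonneg_left h1 hC0.le
      rw [mul_div_cancel₀ _ hC0.ne'] at h2
      linarith
  set I : Set ℝ := Icc (z0 - r0) (z0 + r0) with hI
  have hz0I : z0 ∈ I := ⟨by linarith, by linarith⟩
  have habs : ∀ t ∈ I, |t| ≤ r := by
    intro t ht
    have h1 : |t - z0| ≤ r0 := abs_le.2 ⟨by linarith [ht.1], by linarith [ht.2]⟩
    have h2 : |t| ≤ |t - z0| + |z0| := by
      have := abs_add_le (t - z0) z0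
      rwa [sub_add_cancel] at this
    linarith
  have hlt : ∀ t ∈ I, |t| < 1 := fun t ht => (habs t ht).trans_lt hr1
  have hA : ∀ t ∈ I, Alive d (ze δ (t, ϑ t)) := fun t ht => (hϑ t (hlt t ht)).2
  -- Lipschitz estimate
  have lipf : ∀ f : ℝ × ℝ → ℝ, ContDiffOn ℝ ∞ f U →
      (∀ t ∈ I, |dz f (t, ϑ t) + sg θ δ d (t, ϑ t) * dt f (t, ϑ t)| ≤ C) →
      ∀ t ∈ I, ∀ t' ∈ I, |f (t, ϑ t) - f (t', ϑ t')| ≤ C * |t - t'| := by
    intro f hf hb t ht t' ht'
    have := Convex.norm_image_sub_le_of_norm_hasDerivWithin_le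
      (f := fun t => f (t, ϑ t)) (f' := fun t => dz f (t, ϑ t) + sg θ δ d (t, ϑ t) * dt f (t, ϑ t))
      (fun t ht => (along hf (hlt t ht) (hϑ t (hlt t ht)).1).hasDerivWithinAt)
      (fun t ht => by rw [Real.norm_eq_abs]; exact hb t ht) (convex_Icc _ _) ht' ht
    rw [Real.norm_eq_abs, Real.norm_eq_abs] at this
    exact this
  have lipY : ∀ j, ∀ t ∈ I, ∀ t' ∈ I, |Yf δ d j (t, ϑ t) - Yf δ d j (t', ϑ t')| ≤ C * |t - t'| :=
    fun j => lipf _ (smooth_Y hDt δ d j) fun t ht => (hC _ (habs t ht) (hA t ht)).1 j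
  -- the pattern fits
  have hFit : ∀ t ∈ I, Fit δ κ κ2 d bad (t, ϑ t) := by
    intro t ht
    refine fit_at hδ hκ2 hκ hκ2' bad (hA z0 hz0I) hbad (hlt t ht)
      (hSv _ (hlt t ht)) (hA t ht) (ε := C * r0) hrB hrC fun j => ?_
    have h1 := lipY j t ht z0 hz0I
    have h2 : |t - z0| ≤ r0 := abs_le.2 ⟨by linarith [ht.1], by linarith [ht.2]⟩
    exact h1.trans (mul_le_mul_of_nonneg_left h2 hC0.le)
  -- the chain
  set S : ℕ → Ch := Ch.seq d bad with hSdef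
  have hgood : ∀ i, Good d bad (S i) := good_seq hd bad
  obtain ⟨C', hC'0, hW1, hW2, hW3⟩ := hChG δ κ κ2 d bad hδ hκ hκc hκ2 hd v0 hv0U (hFit z0 hz0I)
  set q : ℕ → ℝ → P3 := fun i t => (S i).pt d (ze δ (t, ϑ t)) with hq
  set W : ℕ → ℝ := fun i => dt ((S i).fn δ d) v0 with hW
  set w : ℕ → ℝ := fun i => Nat.casesOn i 0 W with hw
  have hw0 : w 0 = 0 := rfl
  have hws : ∀ i, w (i + 1) = W i := fun i => rfl
  have hmain := hJac δ κ hδ hκ hκc z0 r0 hr0p q (fun i => (S i).dg d bad) (max C C') ?_ ?_ ?_ ?_ ?_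
    w hw0 ?_ ?_ ?_ ?_
  · -- conclusion
    by_cases hb : bad 0 = true
    · right
      have h0 : S 0 = .T 0 0 := by
        rw [hSdef]; unfold Ch.seq; rw [if_pos hb]
      refine ⟨?_, ?_⟩
      · have : (fun t => (q 0 t).y) = fun t => (ze δ (t, ϑ t)).x := by
          funext t
          simp only [hq, h0]
          rfl
        rw [this] at hmain
        exact hmain
      · have h1 : |tf d 0 1 (ze δ v0)| ≤ κ := ((hFit z0 hz0I).2.1 0 hb).2 1 (hd 0)
        have h2 : tf d 0 1 (ze δ v0) = (ze δ v0).x := rfl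
        rw [h2] at h1
        have h3 := cc_sq δ
        have h4 := abs_nonneg (ze δ v0).x
        rw [← sq_abs]
        nlinarith
    · left
      have h0 : S 0 = .Y 0 := by
        rw [hSdef]; unfold Ch.seq; rw [if_neg hb]
      refine ⟨?_, ?_⟩
      · have : (fun t => (q 0 t).y) = fun t => (ze δ (t, ϑ t)).y := by
          funext t
          simp only [hq, h0]
          rfl
        rw [this] at hmain
        exact hmain
      · have h1 : |Yf δ d 0 v0| ≤ κ := (hFit z0 hz0I).1 0 (by simpa using hb)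
        have h2 : Yf δ d 0 v0 = (ze δ v0).y := rfl
        rw [h2] at h1
        have h3 := cc_sq δ
        have h4 := abs_nonneg (ze δ v0).y
        rw [← sq_abs]
        nlinarith
  · -- digits
    intro i
    exact (hCh δ d hd bad (ze δ v0) ⟨0, 0, 0⟩ (hSv _ hv0U) (tan_zero _) i _ _ rfl rfl).2.2.1
  · -- points
    intro i t ht
    have h1 := hCh δ d hd bad (ze δ (t, ϑ t)) ⟨0, 0, 0⟩ (hSv _ (hlt t ht)) (tan_zero _) i _ _ rfl rfl
    refine ⟨h1.1, ?_, ?_, h1.2.2.2.1, h1.2.2.2.2.1⟩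
    · rcases i with _ | i
      · simp only [hq]
        rw [hSdef, seq_zero_z]
        have : (ze δ (t, ϑ t)).z = t := rfl
        rw [this]
        exact (hlt t ht).le.trans hκ.le
      · have h2 := hCh δ d hd bad (ze δ (t, ϑ t)) ⟨0, 0, 0⟩ (hSv _ (hlt t ht)) (tan_zero _) i _ _
          rfl rfl
        have h3 : (q (i + 1) t).z = (q i t).y := h2.2.2.2.1
        rw [h3]
        simp only [hq]
        rw [pt_y]
        exact fn_le (hFit t ht) (hgood i)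
    · simp only [hq]
      rw [pt_y]
      exact fn_le (hFit t ht) (hgood i)
  · -- continuity
    intro i
    have h1 : ContinuousOn (fun t => toL (ze δ (t, ϑ t))) I := by
      have h2 : ContinuousOn (fun t => ((t, ϑ t) : ℝ × ℝ)) I :=
        continuousOn_id.prodMk fun t ht => (hϑ t (hlt t ht)).1.continuousAt.continuousWithinAt
      exact ((hCoord δ).2.2.1.continuousOn).comp h2 fun t ht => hlt t ht
    have h2 : ContinuousOn (fun t => toL (q i t)) I := (cont_pt d (S i)).comp_continuousOn h1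
    exact ⟨continuous_fst.comp_continuousOn h2,
      (continuous_fst.comp continuous_snd).comp_continuousOn h2,
      (continuous_snd.comp continuous_snd).comp_continuousOn h2⟩
  · intro t ht
    simp only [hq]
    rw [hSdef, seq_zero_z]
    rfl
  · -- Lipschitz
    intro i t ht t' ht'
    simp only [hq]
    rw [pt_y, pt_y]
    have h1 : |(S i).fn δ d (t, ϑ t) - (S i).fn δ d (t', ϑ t')| ≤ C * |t - t'| := by
      refine lipf _ (fn_smooth hDt δ d (S i)) ?_ t ht t' ht'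
      intro t ht
      have hg := hgood i
      rcases hs : S i with j | ⟨j, k⟩
      · exact (hC _ (habs t ht) (hA t ht)).1 j
      · rw [hs] at hg
        exact (hC _ (habs t ht) (hA t ht)).2 j (k + 1) ((hFit t ht).2.1 j hg.1).1 hg.2
    exact h1.trans (mul_le_mul_of_nonneg_right (le_max_left _ _) (abs_nonneg _))
  · intro i hi
    obtain ⟨i, rfl⟩ : ∃ k, i = k + 1 := ⟨i - 1, by omega⟩
    exact hW1 i
  · -- tangent vectors
    intro i
    have h1 := hCh δ d hd bad (ze δ v0) (u0 δ v0) (hSv _ hv0U) (tan_u0 δ v0) i _ _ rfl rfl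
    refine ⟨(S i).tg d (ze δ v0) (u0 δ v0), h1.2.1, ?_, ?_, ?_⟩
    · rcases i with _ | i
      · rw [hw0, hSdef, seq_zero_tgz]
        rfl
      · have h2 := hCh δ d hd bad (ze δ v0) (u0 δ v0) (hSv _ hv0U) (tan_u0 δ v0) i _ _ rfl rfl
        rw [hws]
        refine (h2.2.2.2.2.2.1).trans ?_
        exact tg_y hCoord hDt δ d hv0U (S i)
    · rw [hws]
      exact tg_y hCoord hDt δ d hv0U (S i)
    · have h2 := h1.2.2.2.2.2.2
      have h3 : w (i + 2) = W (i + 1) := rfl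
      rw [h3]
      refine h2.symm.trans ?_
      exact tg_y hCoord hDt δ d hv0U (S (i + 1))
  · -- sums
    intro i hi
    obtain ⟨i, rfl⟩ : ∃ k, i = k + 1 := ⟨i - 1, by omega⟩
    rw [Finset.sum_range_succ', hw0, abs_zero, add_zero]
    refine (hW2 i).trans ?_
    exact mul_le_mul_of_nonneg_right (le_max_right _ _) (abs_nonneg _)
  · intro i n hi
    obtain ⟨i, rfl⟩ : ∃ k, i = k + 1 := ⟨i - 1, by omega⟩
    have hmax : C' / |w (i + 1)| ≤ max C C' / |w (i + 1)| :=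
      div_le_div_of_nonneg_right (le_max_right _ _) (abs_nonneg _)
    refine le_trans ?_ hmax
    rcases n with _ | n
    · rw [Finset.Ico_eq_empty (by omega), Finset.sum_empty]
      positivity
    · rw [← Finset.sum_Ico_add' (fun l => 1 / |w l|) i n 1]
      exact hW3 i n

/-- the third coordinate from the equation of the surface -/
theorem other {y x : ℝ → ℝ} {δ z0 : ℝ} (hδ : δ ≠ 0) (hz0 : |z0| < 1)
    (hy : ContDiffAt ℝ ∞ y z0) (hx : ContinuousAt x z0)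
    (hS : ∀ᶠ t in 𝓝 z0, (x t - y t * t) ^ 2 = δ ^ 2 + (1 - y t ^ 2) * (1 - t ^ 2))
    (hb : y z0 ^ 2 < 1 + δ ^ 2) : ContDiffAt ℝ ∞ x z0 := by
  have hpos : 0 < δ ^ 2 + (1 - y z0 ^ 2) * (1 - z0 ^ 2) := by
    have h1 : z0 ^ 2 < 1 := by rw [← sq_abs]; nlinarith [abs_nonneg z0]
    have h2 : 0 < δ ^ 2 := by positivity
    have h3 : 0 ≤ z0 ^ 2 := sq_nonneg _
    have h4 : δ ^ 2 + (1 - y z0 ^ 2) * (1 - z0 ^ 2) =
        δ ^ 2 * z0 ^ 2 + (1 - z0 ^ 2) * (1 + δ ^ 2 - y z0 ^ 2) := by ring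
    rw [h4]
    have h5 : 0 < (1 - z0 ^ 2) * (1 + δ ^ 2 - y z0 ^ 2) := mul_pos (by linarith) (by linarith)
    nlinarith
  have hs : ContDiffAt ℝ ∞ (fun t => √(δ ^ 2 + (1 - y t ^ 2) * (1 - t ^ 2))) z0 := by
    refine ContDiffAt.sqrt (f := fun t => δ ^ 2 + (1 - y t ^ 2) * (1 - t ^ 2)) ?_ hpos.ne'
    exact contDiffAt_const.add ((contDiffAt_const.sub (hy.pow 2)).mul
      (contDiffAt_const.sub (contDiffAt_id.pow 2)))
  have hyz : ContDiffAt ℝ ∞ (fun t => y t * t) z0 := hy.mul contDiffAt_id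
  have hg : ContinuousAt (fun t => x t - y t * t) z0 := hx.sub hyz.continuousAt
  have hne : x z0 - y z0 * z0 ≠ 0 := by
    intro h
    have h1 := hS.self_of_nhds
    rw [h] at h1
    nlinarith
  rcases lt_or_gt_of_ne hne with h | h
  · have h1 : ∀ᶠ t in 𝓝 z0, x t - y t * t < 0 := hg.eventually (gt_mem_nhds h)
    refine (hyz.sub hs).congr_of_eventuallyEq ?_
    filter_upwards [h1, hS] with t ht1 ht2
    rw [← ht2, Real.sqrt_sq_eq_abs, abs_of_neg ht1]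
    ring
  · have h1 : ∀ᶠ t in 𝓝 z0, 0 < x t - y t * t := hg.eventually (lt_mem_nhds h)
    refine (hyz.add hs).congr_of_eventuallyEq ?_
    filter_upwards [h1, hS] with t ht1 ht2
    rw [← ht2, Real.sqrt_sq_eq_abs, abs_of_pos ht1]
    ring

/-- **Leaves are smooth.** -/
theorem tSLeafC (hJac : SJac) (hCh : SCh) (hChG : SChG) (hLip : SLip) (hCoord : SCoord)
    (hDt : SDt) : SLeafC := by
  intro δ κ d θ hδ hκ hκc hd hθ ϑ hϑ
  have hIoo : ∀ z : ℝ, z ∈ Ioo (-1 : ℝ) 1 ↔ |z| < 1 := fun z => abs_lt.symm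
  have hS : ∀ z : ℝ, |z| < 1 → OnS δ (ze δ (z, ϑ z)) := fun z hz => (hCoord δ).1 _ hz
  have hev : ∀ z0 : ℝ, |z0| < 1 → ∀ᶠ t in 𝓝 z0, |t| < 1 := fun z0 hz0 =>
    (isOpen_lt continuous_abs continuous_const).mem_nhds hz0
  have hcont : ∀ z0 : ℝ, |z0| < 1 → ContinuousAt (fun t => toL (ze δ (t, ϑ t))) z0 := by
    intro z0 hz0
    have h1 : ContinuousAt (fun v => toL (ze δ v)) (z0, ϑ z0) :=
      (hCoord δ).2.2.1.continuousOn.continuousAt (isOpen_U.mem_nhds hz0)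
    exact ContinuousAt.comp (f := fun t => ((t, ϑ t) : ℝ × ℝ)) (g := fun v => toL (ze δ v)) h1
      (continuousAt_id.prodMk (hϑ z0 hz0).1.continuousAt)
  have hxy : ∀ z0 : ℝ, |z0| < 1 → ContDiffAt ℝ ∞ (fun t => (ze δ (t, ϑ t)).y) z0 ∧
      ContDiffAt ℝ ∞ (fun t => (ze δ (t, ϑ t)).x) z0 := by
    intro z0 hz0
    have hz : ∀ t, (ze δ (t, ϑ t)).z = t := fun t => rfl
    have hcy : ContinuousAt (fun t => (ze δ (t, ϑ t)).y) z0 :=
      (continuous_fst.comp continuous_snd).continuousAt.comp (hcont z0 hz0)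
    have hcx : ContinuousAt (fun t => (ze δ (t, ϑ t)).x) z0 :=
      (continuous_snd.comp continuous_snd).continuousAt.comp (hcont z0 hz0)
    rcases first hJac hCh hChG hLip hCoord hDt hδ hκ hκc hd hθ hϑ hz0 with ⟨h1, h2⟩ | ⟨h1, h2⟩
    · refine ⟨h1, other hδ hz0 h1 hcx ?_ h2⟩
      filter_upwards [hev z0 hz0] with t ht
      have := (hS t ht).X2
      unfold gX at this
      rw [hz] at this
      exact this
    · refine ⟨other hδ hz0 h1 hcy ?_ h2, h1⟩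
      filter_upwards [hev z0 hz0] with t ht
      have := (hS t ht).B2
      unfold gB at this
      rw [hz] at this
      exact this
  -- the trigonometric functions
  have hB : ∀ t : ℝ, |t| < 1 → 0 < Bf δ t ∧ ContDiffAt ℝ ∞ (Bf δ) t := by
    intro t ht
    have h1 : t ^ 2 < 1 := by rw [← sq_abs]; nlinarith [abs_nonneg t]
    have h2 : 0 < (1 + δ ^ 2 - t ^ 2) / (1 - t ^ 2) := by
      apply div_pos
      · nlinarith [sq_nonneg δ]
      · linarith
    refine ⟨Real.sqrt_pos.2 h2, ?_⟩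
    unfold Bf
    refine ContDiffAt.sqrt (f := fun z => (1 + δ ^ 2 - z ^ 2) / (1 - z ^ 2)) ?_ h2.ne'
    exact ((contDiffAt_const.add contDiffAt_const).sub (contDiffAt_id.pow 2)).div
      (contDiffAt_const.sub (contDiffAt_id.pow 2)) (by
        change (1 : ℝ) - t ^ 2 ≠ 0
        linarith)
  have hR : ∀ t : ℝ, |t| < 1 → 0 < √(1 - t ^ 2) ∧ ContDiffAt ℝ ∞ (fun t : ℝ => √(1 - t ^ 2)) t := by
    intro t ht
    have h1 : t ^ 2 < 1 := by rw [← sq_abs]; nlinarith [abs_nonneg t]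
    have h2 : 0 < 1 - t ^ 2 := by linarith
    refine ⟨Real.sqrt_pos.2 h2, ?_⟩
    refine ContDiffAt.sqrt (f := fun t : ℝ => 1 - t ^ 2) ?_ h2.ne'
    exact contDiffAt_const.sub (contDiffAt_id.pow 2)
  have hcos : ∀ z0 : ℝ, |z0| < 1 → ContDiffAt ℝ ∞ (fun t => cos (ϑ t)) z0 := by
    intro z0 hz0
    refine ((hxy z0 hz0).1.div (hB z0 hz0).2 (hB z0 hz0).1.ne').congr_of_eventuallyEq ?_
    filter_upwards [hev z0 hz0] with t ht
    have h1 : (ze δ (t, ϑ t)).y = Bf δ t * cos (ϑ t) := rfl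
    simp only [Pi.div_apply]
    rw [h1, mul_div_cancel_left₀ _ (hB t ht).1.ne']
  have hsin : ∀ z0 : ℝ, |z0| < 1 → ContDiffAt ℝ ∞ (fun t => sin (ϑ t)) z0 := by
    intro z0 hz0
    refine ((((hxy z0 hz0).2.div (hB z0 hz0).2 (hB z0 hz0).1.ne').sub
      (contDiffAt_id.mul (hcos z0 hz0))).div (hR z0 hz0).2 (hR z0 hz0).1.ne').congr_of_eventuallyEq ?_
    filter_upwards [hev z0 hz0] with t ht
    have h1 : (ze δ (t, ϑ t)).x = Bf δ t * (t * cos (ϑ t) + √(1 - t ^ 2) * sin (ϑ t)) := rfl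
    have h2 := (hB t ht).1.ne'
    have h3 := (hR t ht).1.ne'
    simp only [id, Pi.mul_apply, Pi.div_apply, Pi.sub_apply]
    rw [h1, mul_div_cancel_left₀ _ h2]
    field_simp
    ring
  rw [contDiffOn_infty_iff_deriv_of_isOpen isOpen_Ioo]
  refine ⟨fun t ht => ((hϑ t ((hIoo t).1 ht)).1.differentiableAt).differentiableWithinAt, ?_⟩
  have hc : ContDiffOn ℝ ∞ (fun t => cos (ϑ t)) (Ioo (-1) 1) :=
    fun t ht => (hcos t ((hIoo t).1 ht)).contDiffWithinAt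
  have hs : ContDiffOn ℝ ∞ (fun t => sin (ϑ t)) (Ioo (-1) 1) :=
    fun t ht => (hsin t ((hIoo t).1 ht)).contDiffWithinAt
  have hc' := ((contDiffOn_infty_iff_deriv_of_isOpen isOpen_Ioo).1 hc).2
  have hs' := ((contDiffOn_infty_iff_deriv_of_isOpen isOpen_Ioo).1 hs).2
  refine ((hc.mul hs').sub (hs.mul hc')).congr fun t ht => ?_
  have h1 := (hϑ t ((hIoo t).1 ht)).1
  have h2 := h1.sin.deriv
  have h3 := h1.cos.deriv
  rw [h1.deriv, h2, h3]
  have := Real.sin_sq_add_cos_sq (ϑ t)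
  linear_combination (-sg θ δ d (t, ϑ t)) * this

end Pool.Agent.H253.TmLeafC
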